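import Pool.Agent.Helper45.KZ.Folds
import Pool.Agent.Helper18.Katz7

/-!
# Project KZ, module KZ-16: algebra of relations modulo the cyclotomic polynomial
-/

set_option autoImplicit false

namespace Pool.Agent.Helper81.KZ

open Finset Polynomial
open Pool.Agent.Helper18.Katz

/-- integral Bezout relation from coprimality over the rationals -/
theorem bezout (P Q : ℤ[X])
    (h : IsCoprime (P.map (Int.castRingHom ℚ)) (Q.map (Int.castRingHom ℚ))) :
    ∃ (A B : ℤ[X]) (R : ℤ), 0 < R ∧ A * P + B * Q = C R := by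
  obtain ⟨A', B', hAB⟩ := h
  obtain ⟨b1, hb1⟩ := IsLocalization.integerNormalization_map_to_map (nonZeroDivisors ℤ) A'
  obtain ⟨b2, hb2⟩ := IsLocalization.integerNormalization_map_to_map (nonZeroDivisors ℤ) B'
  set A1 := IsLocalization.integerNormalization (nonZeroDivisors ℤ) A'
  set B1 := IsLocalization.integerNormalization (nonZeroDivisors ℤ) B'
  set r1 : ℤ := (b1 : ℤ) with hr1
  set r2 : ℤ := (b2 : ℤ) with hr2
  have hr10 : r1 ≠ 0 := nonZeroDivisors.ne_zero b1.2
  have hr20 : r2 ≠ 0 := nonZeroDivisors.ne_zero b2.2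
  refine ⟨C (r1 * r2 * r2) * A1, C (r1 * r2 * r1) * B1, (r1 * r2) ^ 2, by positivity, ?_⟩
  have hinj : Function.Injective (Polynomial.map (Int.castRingHom ℚ)) :=
    map_injective _ (RingHom.injective_int (Int.castRingHom ℚ))
  apply hinj
  have e1 : A1.map (Int.castRingHom ℚ) = C (r1 : ℚ) * A' := by
    have := hb1
    rw [show (algebraMap ℤ ℚ) = Int.castRingHom ℚ from rfl] at this
    rw [this]
    ext k
    simp [hr1, Submonoid.smul_def]
  have e2 : B1.map (Int.castRingHom ℚ) = C (r2 : ℚ) * B' := by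
    have := hb2
    rw [show (algebraMap ℤ ℚ) = Int.castRingHom ℚ from rfl] at this
    rw [this]
    ext k
    simp [hr2, Submonoid.smul_def]
  simp only [Polynomial.map_add, Polynomial.map_mul, map_C, e1, e2, Int.coe_castRingHom]
  push_cast
  simp only [C_mul, C_pow]
  linear_combination (C (r1 : ℚ) * C (r2 : ℚ)) ^ 2 * hAB

theorem prod_dvd_of (S : Finset ℕ) : ∃ c : ℤ, 0 < c ∧ ∀ p x : ℤ,
    (∀ d ∈ S, (cyclotomic d ℤ).eval p ∣ x) → (∏ d ∈ S, cyclotomic d ℤ).eval p ∣ c * x := by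
  induction S using Finset.induction_on with
  | empty => exact ⟨1, one_pos, fun p x _ => by simp⟩
  | insert d S hd ih =>
    obtain ⟨c, hc, ih⟩ := ih
    have hcop : IsCoprime ((cyclotomic d ℤ).map (Int.castRingHom ℚ))
        ((∏ e ∈ S, cyclotomic e ℤ).map (Int.castRingHom ℚ)) := by
      rw [Polynomial.map_prod]
      apply IsCoprime.prod_right
      intro e he
      rw [map_cyclotomic, map_cyclotomic]
      exact cyclotomic.isCoprime_rat (fun h => hd (h ▸ he))
    obtain ⟨A, B, R, hR, hAB⟩ := bezout _ _ hcop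
    refine ⟨R * c, by positivity, fun p x hx => ?_⟩
    rw [Finset.prod_insert hd, eval_mul]
    have h1 := hx d (Finset.mem_insert_self _ _)
    have h2 := ih p x (fun e he => hx e (Finset.mem_insert_of_mem he))
    have h3 := congrArg (eval p) hAB
    rw [eval_add, eval_mul, eval_mul, eval_C] at h3
    rw [← h3]
    obtain ⟨y, hy⟩ := h1
    obtain ⟨z, hz⟩ := h2
    refine ⟨eval p A * z + eval p B * c * y, ?_⟩
    generalize eval p (cyclotomic d ℤ) = P at *
    generalize eval p (∏ e ∈ S, cyclotomic e ℤ) = Q at *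
    linear_combination (eval p A * P) * hz + (eval p B * Q * c) * hy

variable {n : ℕ}

theorem cyclotomic_dvd_of [NeZero n] (hn : 2 ≤ n) : ∃ g₀ : ℤ, 0 < g₀ ∧ ∀ p x : ℤ,
    (∀ n' ∈ n.properDivisors, (p ^ n' - 1) ∣ x) →
    (p ^ n - 1) ∣ g₀ * x * (cyclotomic n ℤ).eval p := by
  obtain ⟨c, hc, h⟩ := prod_dvd_of n.properDivisors
  refine ⟨c, hc, fun p x hx => ?_⟩
  have h1 := h p x (fun d hd => by
    refine Dvd.dvd.trans ?_ (hx d hd)
    have h2 := cyclotomic.dvd_X_pow_sub_one d ℤ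
    obtain ⟨w, hw⟩ := h2
    refine ⟨eval p w, ?_⟩
    have := congrArg (eval p) hw
    simpa using this)
  have hn0 : 0 < n := by omega
  have h3 := prod_cyclotomic_eq_X_pow_sub_one hn0 ℤ
  rw [← Nat.insert_self_properDivisors hn0.ne', Finset.prod_insert Nat.self_notMem_properDivisors] at h3
  have h4 := congrArg (eval p) h3
  rw [eval_mul] at h4
  simp only [eval_sub, eval_pow, eval_X, eval_one] at h4
  rw [← h4]
  obtain ⟨y, hy⟩ := h1
  refine ⟨y, ?_⟩
  rw [hy]
  ring

/-- the sum of the coefficients in a residue class -/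
noncomputable def LL (n' j : ℕ) : ℤ[X] →ₗ[ℤ] ℤ :=
  Polynomial.lsum (fun k => if k % n' = j then LinearMap.id else 0)

theorem LL_apply (n' j : ℕ) (F : ℤ[X]) :
    LL n' j F = ∑ k ∈ range (F.natDegree + 1), if k % n' = j then F.coeff k else 0 := by
  unfold LL
  rw [Polynomial.lsum_apply, Polynomial.sum_over_range]
  · apply Finset.sum_congr rfl
    intro k _
    split_ifs <;> simp
  · intro k; simp

theorem LL_monomial (n' j k : ℕ) (c : ℤ) :
    LL n' j (monomial k c) = if k % n' = j then c else 0 := by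
  unfold LL
  rw [Polynomial.lsum_apply, Polynomial.sum_monomial_index]
  · split_ifs <;> simp
  · simp

theorem LL_mul (n' j : ℕ) (W : ℤ[X]) : LL n' j ((X ^ n' - 1) * W) = 0 := by
  induction W using Polynomial.induction_on' with
  | add p q hp hq => rw [mul_add, map_add, hp, hq, add_zero]
  | monomial k c =>
    rw [sub_mul, one_mul, X_pow_mul_monomial, map_sub, LL_monomial, LL_monomial]
    simp

theorem LL_C (n' j : ℕ) (c : ℤ) : LL n' j (C c) = if 0 = j then c else 0 := by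
  have h := LL_monomial n' j 0 c
  rw [monomial_zero_left, Nat.zero_mod] at h
  exact h

theorem foldsTo_fold [NeZero n] (F : ℤ[X]) (n' : ℕ) (hn' : n' ∣ n) (j : ℕ) :
    (∑ i : ZMod n, if i.val % n' = j then Helper18.Katz.fold n F i else 0) = LL n' j F := by
  rw [LL_apply]
  unfold Helper18.Katz.fold
  have h1 : ∀ i : ZMod n, (if i.val % n' = j then
      (∑ k ∈ range (F.natDegree + 1), if ((k : ℕ) : ZMod n) = i then F.coeff k else 0) else 0) =
      ∑ k ∈ range (F.natDegree + 1), if ((k : ℕ) : ZMod n) = i then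
        (if i.val % n' = j then F.coeff k else 0) else 0 := by
    intro i
    split_ifs
    · rfl
    · simp
  rw [Finset.sum_congr rfl (fun i _ => h1 i), Finset.sum_comm]
  apply Finset.sum_congr rfl
  intro k _
  rw [Finset.sum_ite_eq, if_pos (Finset.mem_univ _), ZMod.val_natCast, Nat.mod_mod_of_dvd _ hn']

theorem dvd_of_foldsTo [NeZero n] (w : ZMod n → ℤ) (n' : ℕ) (hn' : 0 < n')
    (h : Helper77.KZ.FoldsTo w n' 0) : (X ^ n' - 1 : ℤ[X]) ∣ toPoly n w := by
  have h1 : ∀ k : ℕ, (X ^ n' - 1 : ℤ[X]) ∣ X ^ k - X ^ (k % n') := by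
    intro k
    have h2 : (X ^ k : ℤ[X]) = X ^ (k % n') * (X ^ n') ^ (k / n') := by
      rw [← pow_mul, ← pow_add, Nat.mod_add_div]
    rw [h2]
    have h3 : (X ^ n' - 1 : ℤ[X]) ∣ (X ^ n') ^ (k / n') - 1 := by
      simpa using sub_dvd_pow_sub_pow (X ^ n' : ℤ[X]) 1 (k / n')
    obtain ⟨z, hz⟩ := h3
    exact ⟨X ^ (k % n') * z, by linear_combination (X ^ (k % n') : ℤ[X]) * hz⟩
  have h4 : toPoly n w = ∑ i : ZMod n, C (w i) * (X ^ i.val - X ^ (i.val % n')) +
      ∑ i : ZMod n, C (w i) * X ^ (i.val % n') := by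
    rw [← Finset.sum_add_distrib]
    unfold toPoly
    apply Finset.sum_congr rfl
    intro i _
    ring
  have h5 : ∑ i : ZMod n, C (w i) * X ^ (i.val % n') = (0 : ℤ[X]) := by
    have h6 : ∀ i : ZMod n, (C (w i) * X ^ (i.val % n') : ℤ[X]) =
        ∑ j ∈ range n', C (if i.val % n' = j then w i else 0) * X ^ j := by
      intro i
      rw [Finset.sum_eq_single (i.val % n')]
      · simp
      · intro b _ hb
        rw [if_neg (fun h => hb h.symm)]
        simp
      · intro hh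
        exact absurd (Finset.mem_range.mpr (Nat.mod_lt _ hn')) hh
    rw [Finset.sum_congr rfl (fun i _ => h6 i), Finset.sum_comm]
    apply Finset.sum_eq_zero
    intro j hj
    rw [← Finset.sum_mul, ← map_sum, h j (Finset.mem_range.mp hj)]
    simp
  rw [h4, h5, add_zero]
  apply Finset.dvd_sum
  intro i _
  exact Dvd.dvd.mul_left (h1 _) _

theorem toPoly_sub [NeZero n] (u m : ZMod n → ℤ) :
    toPoly n (fun i => u i - m i) = toPoly n u - toPoly n m := by
  unfold toPoly
  rw [← Finset.sum_sub_distrib]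
  apply Finset.sum_congr rfl
  intro i _
  rw [C_sub]
  ring

theorem reduce_relation [NeZero n] (hn : 2 ≤ n) (u m : ZMod n → ℤ)
    (hu : ¬ cyclotomic n ℤ ∣ Helper18.Katz.toPoly n u)
    (hum : ∀ n' ∈ n.properDivisors, Helper77.KZ.FoldsTo (fun i => u i - m i) n' 0) :
    ∃ (m' : ZMod n → ℤ) (R : ℤ), 0 < R ∧ (∑ i, m' i = R) ∧
      (∀ n' ∈ n.properDivisors, Helper77.KZ.FoldsTo m' n' R) ∧
      ∀ p d : ℤ, (∀ n' ∈ n.properDivisors, (p ^ n' - 1) ∣ d - 1) →
        d * ∑ i, u i * p ^ i.val ≡ ∑ i, m i * p ^ i.val [ZMOD (p ^ n - 1)] →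
        d * ∑ i, m' i ≡ ∑ i, m' i * p ^ i.val [ZMOD (p ^ n - 1)] := by
  have hn0 : 0 < n := by omega
  have hcop : IsCoprime ((toPoly n u).map (Int.castRingHom ℚ))
      ((cyclotomic n ℤ).map (Int.castRingHom ℚ)) := by
    apply IsCoprime.symm
    rw [map_cyclotomic, (cyclotomic.irreducible_rat hn0).coprime_iff_not_dvd, ← map_cyclotomic_int n ℚ]
    intro hd
    apply hu
    exact (map_dvd_map (Int.castRingHom ℚ) (RingHom.injective_int (Int.castRingHom ℚ))
      (cyclotomic.monic n ℤ)).mp hd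
  obtain ⟨A, B, R1, hR1, hAB⟩ := bezout _ _ hcop
  obtain ⟨g₀, hg₀, hg⟩ := cyclotomic_dvd_of (n := n) hn
  set F : ℤ[X] := C g₀ * (A * toPoly n m + B * cyclotomic n ℤ) with hF
  have hfold : ∀ n' ∈ n.properDivisors, Helper77.KZ.FoldsTo (Helper18.Katz.fold n F) n' (g₀ * R1) := by
    intro n' hn' j hj
    have hn'2 := Nat.mem_properDivisors.mp hn'
    have hn'0 : 0 < n' := Nat.pos_of_dvd_of_pos hn'2.1 hn0
    rw [foldsTo_fold F n' hn'2.1 j]
    obtain ⟨w, hw⟩ := dvd_of_foldsTo _ n' hn'0 (hum n' hn')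
    rw [toPoly_sub] at hw
    have h1 : F = C (g₀ * R1) - (X ^ n' - 1) * (C g₀ * A * w) := by
      rw [hF, C_mul, ← hAB]
      linear_combination (-C g₀ * A) * hw
    rw [h1, map_sub, LL_mul, LL_C, sub_zero]
    by_cases hj0 : j = 0
    · rw [if_pos hj0, if_pos hj0.symm]
    · rw [if_neg hj0, if_neg (fun h => hj0 h.symm)]
  have hsum : ∑ i, Helper18.Katz.fold n F i = g₀ * R1 := by
    have h1 := hfold 1 (Nat.one_mem_properDivisors_iff_one_lt.mpr (by omega)) 0 one_pos
    simpa [Nat.mod_one] using h1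
  refine ⟨Helper18.Katz.fold n F, g₀ * R1, by positivity, hsum, hfold, fun p d hd hrel => ?_⟩
  rw [hsum]
  refine Int.ModEq.trans ?_ (fold_eval F p).symm
  have h1 := congrArg (eval p) hAB
  rw [eval_add, eval_mul, eval_mul, eval_C, eval_toPoly] at h1
  rw [hF, eval_mul, eval_C, eval_add, eval_mul, eval_mul, eval_toPoly, ← h1]
  obtain ⟨z, hz⟩ := hg p (d - 1) hd
  rw [Int.modEq_iff_dvd] at hrel ⊢
  obtain ⟨y, hy⟩ := hrel
  refine ⟨g₀ * eval p A * y - eval p B * z, ?_⟩
  linear_combination (g₀ * eval p A) * hy - (eval p B) * hz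

end Pool.Agent.Helper81.KZ
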